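import Pool.Agent.W994.AR.FB

/-!
A composition trick: if certain unions of two or three orbits of tuples made of blocks are primitive
positive definable, then `K_3` is pp-constructed. No variables have to be identified.
-/

namespace Pool.Agent.L5helper54.BP

open Pool.Agent.W994.AR

variable {B : Type} {G : Subgroup (Equiv.Perm B)}

/-- the tuple of three blocks, the block `i` has the second colour -/
def pat {k : ℕ} (X : Fin 3 → Bool → Fin k → B) (i : Fin 3) : Fin 3 × Fin k → B :=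
  fun x => X x.1 (decide (x.1 = i)) x.2

/-- two blocks: a block `A c` and a block `X j c` -/
def pr {k : ℕ} (A : Bool → Fin k → B) (X : Fin 3 → Bool → Fin k → B) (j : Fin 3) (c : Bool) :
    Fin k ⊕ Fin k → B := Sum.elim (A c) (X j c)

/-- the relation between three blocks -/
def SS (G : Subgroup (Equiv.Perm B)) {k : ℕ} (X : Fin 3 → Bool → Fin k → B) :
    Set (Fin 3 × Fin k → B) := {v | ∃ i, Same G (pat X i) v}

/-- the relations between two blocks -/
def EE (G : Subgroup (Equiv.Perm B)) {k : ℕ} (A : Bool → Fin k → B)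
    (X : Fin 3 → Bool → Fin k → B) (j : Fin 3) :
    Set (Fin k ⊕ Fin k → B) := {v | ∃ c, Same G (pr A X j c) v}

/-- exactly one of three blocks has the second colour -/
def QQ (G : Subgroup (Equiv.Perm B)) {k : ℕ} (A : Bool → Fin k → B)
    (X : Fin 3 → Bool → Fin k → B) : Set (Fin 3 × Fin k → B) :=
  {v | ∃ u : Fin 3 × Fin k → B, u ∈ SS G X ∧
    ∀ j, Sum.elim (fun a => v (j, a)) (fun a => u (j, a)) ∈ EE G A X j}

theorem pp_Q {ι : Type} {ar : ι → ℕ} {𝔸 : Str ι ar B} {k : ℕ} {A : Bool → Fin k → B}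
    {X : Fin 3 → Bool → Fin k → B} (hS : PP 𝔸 (SS G X)) (hE : ∀ j, PP 𝔸 (EE G A X j)) :
    PP 𝔸 (QQ G A X) := by
  have h1 : PP 𝔸 {z : (Fin 3 × Fin k) ⊕ (Fin 3 × Fin k) → B |
      z ∘ (Sum.inr : Fin 3 × Fin k → _) ∈ SS G X} := hS.subst _
  have h2 : PP 𝔸 {z : (Fin 3 × Fin k) ⊕ (Fin 3 × Fin k) → B | ∀ j ∈ (Set.univ : Set (Fin 3)),
      z ∈ {z : (Fin 3 × Fin k) ⊕ (Fin 3 × Fin k) → B |
        z ∘ (Sum.elim (fun a => Sum.inl (j, a)) (fun a => Sum.inr (j, a)) :
          Fin k ⊕ Fin k → (Fin 3 × Fin k) ⊕ (Fin 3 × Fin k)) ∈ EE G A X j}} :=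
    PP.iInter _ Set.finite_univ _ (fun j _ => (hE j).subst _)
  have h3 := (h1.inter h2).ex (V := Fin 3 × Fin k) (U := Fin 3 × Fin k)
  refine (congrArg (PP 𝔸) ?_).mp h3
  ext v
  constructor
  · rintro ⟨u, hu1, hu2⟩
    refine ⟨u, ?_, ?_⟩
    · have : (Sum.elim v u) ∘ (Sum.inr : Fin 3 × Fin k → _) = u := rfl
      rw [← this]
      exact hu1
    · intro j
      have := hu2 j (Set.mem_univ _)
      refine (congrArg (· ∈ EE G A X j) ?_).mp this
      funext x
      cases x <;> rfl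
  · rintro ⟨u, hu1, hu2⟩
    refine ⟨u, hu1, ?_⟩
    intro j _
    refine (congrArg (· ∈ EE G A X j) ?_).mp (hu2 j)
    funext x
    cases x <;> rfl

/-- the colour of a block -/
def Col (G : Subgroup (Equiv.Perm B)) {k : ℕ} (A : Bool → Fin k → B) (x : Fin k → B) : Prop :=
  Same G (A true) x

theorem col_of_Q {k : ℕ} {A : Bool → Fin k → B} {X : Fin 3 → Bool → Fin k → B}
    (hA : ¬ Same G (A true) (A false)) (hX : ∀ j c, Same G (A c) (X j c))
    {v : Fin 3 × Fin k → B} (hv : v ∈ QQ G A X) :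
    ∃ i : Fin 3, ∀ j, Col G A (fun a => v (j, a)) ↔ j = i := by
  obtain ⟨u, ⟨i, hi⟩, hu⟩ := hv
  refine ⟨i, fun j => ?_⟩
  obtain ⟨c, hc⟩ := hu j
  have h1 : Same G (A c) (fun a => v (j, a)) := hc.comp Sum.inl
  have h2 : Same G (X j c) (fun a => u (j, a)) := hc.comp Sum.inr
  have h3 : Same G (X j (decide (j = i))) (fun a => u (j, a)) := hi.comp (fun a => (j, a))
  have h4 : Same G (A c) (A (decide (j = i))) :=
    ((hX j c).trans h2).trans (((hX j _).trans h3).symm)
  have h5 : c = decide (j = i) := by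
    by_cases hji : j = i
    · rw [decide_eq_true hji] at h4 ⊢
      cases c
      · exact absurd h4.symm hA
      · rfl
    · rw [decide_eq_false hji] at h4 ⊢
      cases c
      · rfl
      · exact absurd h4 hA
  constructor
  · intro h
    by_contra hji
    rw [h5, decide_eq_false hji] at h1
    exact hA (h.trans h1.symm)
  · intro hji
    rw [h5, decide_eq_true hji] at h1
    exact h1

theorem Q_of_pat {k : ℕ} {A : Bool → Fin k → B} {X : Fin 3 → Bool → Fin k → B} (i : Fin 3) :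
    (fun x : Fin 3 × Fin k => A (decide (x.1 = i)) x.2) ∈ QQ G A X := by
  refine ⟨pat X i, ⟨i, Same.refl G _⟩, fun j => ⟨decide (j = i), ?_⟩⟩
  exact Same.refl G _

/-- **The block lemma.** -/
theorem k3_of_blocks {ι : Type} {ar : ι → ℕ} {𝔸 : Str ι ar B} {k : ℕ} {A : Bool → Fin k → B}
    {X : Fin 3 → Bool → Fin k → B} (hk : 1 ≤ k) (hA : ¬ Same G (A true) (A false))
    (hX : ∀ j c, Same G (A c) (X j c)) (hS : PP 𝔸 (SS G X)) (hE : ∀ j, PP 𝔸 (EE G A X j)) :
    PPConstructsK3 𝔸 := by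
  classical
  have hQ := pp_Q hS hE
  have e : Fin (3 * k) ≃ Fin 3 × Fin k := finProdFinEquiv.symm
  -- the relation between two triples of blocks
  let M := (Fin 3 × Fin k) ⊕ (Fin 3 × Fin k)
  let hQl : PP 𝔸 {z : M → B | z ∘ (Sum.inl : Fin 3 × Fin k → M) ∈ QQ G A X} := hQ.subst _
  let hQr : PP 𝔸 {z : M → B | z ∘ (Sum.inr : Fin 3 × Fin k → M) ∈ QQ G A X} := hQ.subst _
  have hne : ∀ l : Fin 3, PP 𝔸 {z : M → B | ∃ y : Fin k → B,
      (fun x : Fin 3 × Fin k => if x.1 = 0 then z (Sum.inl (l, x.2)) else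
        if x.1 = 1 then z (Sum.inr (l, x.2)) else y x.2) ∈ QQ G A X} := by
    intro l
    have h1 : PP 𝔸 {z : M ⊕ Fin k → B | z ∘ (fun x : Fin 3 × Fin k =>
        if x.1 = 0 then Sum.inl (Sum.inl (l, x.2)) else
        if x.1 = 1 then Sum.inl (Sum.inr (l, x.2)) else Sum.inr x.2) ∈ QQ G A X} := hQ.subst _
    have h2 := h1.ex (V := M) (U := Fin k)
    refine (congrArg (PP 𝔸) ?_).mp h2
    ext z
    constructor
    · rintro ⟨y, hy⟩
      refine ⟨y, ?_⟩
      refine (congrArg (· ∈ QQ G A X) ?_).mp hy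
      funext x
      simp only [Function.comp]
      split_ifs <;> rfl
    · rintro ⟨y, hy⟩
      refine ⟨y, ?_⟩
      refine (congrArg (· ∈ QQ G A X) ?_).mp hy
      funext x
      simp only [Function.comp]
      split_ifs <;> rfl
  let E : Set (M → B) := {z | z ∘ (Sum.inl : Fin 3 × Fin k → M) ∈ QQ G A X} ∩
    ({z | z ∘ (Sum.inr : Fin 3 × Fin k → M) ∈ QQ G A X} ∩
      {z | ∀ l ∈ (Set.univ : Set (Fin 3)), z ∈ {z : M → B | ∃ y : Fin k → B,
      (fun x : Fin 3 × Fin k => if x.1 = 0 then z (Sum.inl (l, x.2)) else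
        if x.1 = 1 then z (Sum.inr (l, x.2)) else y x.2) ∈ QQ G A X}})
  have hE' : PP 𝔸 E := hQl.inter (hQr.inter (PP.iInter _ Set.finite_univ _ (fun l _ => hne l)))
  refine ⟨3 * k, {v | v ∘ (Sum.map e.symm e.symm : M → Fin (3 * k) ⊕ Fin (3 * k)) ∈ E}, by omega,
    (hE'.subst _).toPPDef, ?_, ?_⟩
  · refine ⟨fun i x => A (decide ((e x).1 = i)) (e x).2, fun i j hij => ⟨?_, ?_, ?_⟩⟩
    · refine (congrArg (· ∈ QQ G A X) ?_).mp (Q_of_pat (G := G) (A := A) (X := X) i)
      funext x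
      simp [Function.comp]
    · refine (congrArg (· ∈ QQ G A X) ?_).mp (Q_of_pat (G := G) (A := A) (X := X) j)
      funext x
      simp [Function.comp]
    · intro l _
      -- the colours of the blocks `l`
      by_cases hli : l = i
      · refine ⟨A false, ?_⟩
        have hlj : l ≠ j := fun h => hij (hli.symm.trans h)
        refine (congrArg (· ∈ QQ G A X) ?_).mp (Q_of_pat (G := G) (A := A) (X := X) 0)
        funext x
        obtain ⟨x1, x2⟩ := x
        fin_cases x1 <;> simp [Function.comp, hli, hlj, hij]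
      · by_cases hlj : l = j
        · refine ⟨A false, ?_⟩
          refine (congrArg (· ∈ QQ G A X) ?_).mp (Q_of_pat (G := G) (A := A) (X := X) 1)
          funext x
          obtain ⟨x1, x2⟩ := x
          fin_cases x1 <;> simp [Function.comp, hli, hlj, Ne.symm hij]
        · refine ⟨A true, ?_⟩
          refine (congrArg (· ∈ QQ G A X) ?_).mp (Q_of_pat (G := G) (A := A) (X := X) 2)
          funext x
          obtain ⟨x1, x2⟩ := x
          fin_cases x1 <;> simp [Function.comp, hli, hlj]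
  · let g : (Fin (3 * k) → B) → Fin 3 := fun w =>
      if h : ∃ i : Fin 3, ∀ j, Col G A (fun a => w (e.symm (j, a))) ↔ j = i then h.choose else 0
    have hg : ∀ (w : Fin (3 * k) → B), (∃ i : Fin 3, ∀ j, Col G A (fun a => w (e.symm (j, a))) ↔ j = i)
        → Col G A (fun a => w (e.symm (g w, a))) := by
      intro w h
      have h1 : g w = h.choose := dif_pos h
      rw [h1]
      exact (h.choose_spec _).2 rfl
    refine ⟨g, ?_⟩
    rintro x y ⟨h1, h2, h3⟩ hxy
    have hx := hg x (col_of_Q hA hX h1)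
    have hy := hg y (col_of_Q hA hX h2)
    rw [← hxy] at hy
    obtain ⟨z, hz⟩ := h3 (g x) (Set.mem_univ _)
    obtain ⟨i, hi⟩ := col_of_Q hA hX hz
    have i0 : (0 : Fin 3) = i := (hi 0).1 (by simpa using hx)
    have i1 : (1 : Fin 3) = i := (hi 1).1 (by simpa using hy)
    rw [← i1] at i0
    exact absurd i0 (by decide)

end Pool.Agent.L5helper54.BP
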