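import Pool.Agent.L5helper54.BP.Event

/-!
Counting vectors of types with given restrictions to disjoint blocks.
-/

namespace Pool.Agent.L5helper54.BP

open Pool.Agent.W994.AR

variable {B σ : Type} {ar : σ → ℕ}

/-- the restriction of a type to a block -/
def resT {𝔹 : Str σ ar B} {K n : ℕ} (ε : Fin K → Fin n) (hε : Function.Injective ε)
    (H : Typ 𝔹 n) : Typ 𝔹 K :=
  ⟨res ε H.1, tup H ∘ ε, (tup_inj H).comp hε, fun i v => by
    have := congrFun (ind_tup H) i
    show ε ∘ v ∈ H.1 i ↔ _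
    rw [← this]
    rfl⟩

/-- mixing of types -/
def mixT {𝔹 : Str σ ar B} (hmix : MixClosed 𝔹) {n : ℕ} (P : Set (Fin n)) (H' H : Typ 𝔹 n) :
    Typ 𝔹 n := ⟨mix P H'.1 H.1, hmix n P _ _ H.2 H'.2⟩

/-- a type with a given restriction to a block -/
theorem exists_ext [Infinite B] {𝔹 : Str σ ar B} {K n : ℕ} (ε : Fin K → Fin n)
    (hε : Function.Injective ε) (Ψ : Typ 𝔹 K) : ∃ H : Typ 𝔹 n, resT ε hε H = Ψ := by
  classical
  let f : Fin n → B := fun x => if h : ∃ a, ε a = x then tup Ψ h.choose else Classical.arbitrary B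
  have hf : ∀ a, f (ε a) = tup Ψ a := by
    intro a
    have h : ∃ a', ε a' = ε a := ⟨a, rfl⟩
    have h1 : f (ε a) = tup Ψ h.choose := dif_pos h
    rw [h1, hε h.choose_spec]
  obtain ⟨g, hg, hgf⟩ := ext_inj f (Set.range ε) (by
    rintro _ ⟨a, rfl⟩ _ ⟨b, rfl⟩ h
    rw [hf, hf] at h
    rw [tup_inj Ψ h])
  refine ⟨⟨ind 𝔹 g, g, hg, fun _ _ => Iff.rfl⟩, Subtype.ext ?_⟩
  show res ε (ind 𝔹 g) = Ψ.1
  rw [← ind_tup Ψ]
  funext i
  ext s
  show g ∘ (ε ∘ s) ∈ 𝔹 i ↔ tup Ψ ∘ s ∈ 𝔹 i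
  have : g ∘ (ε ∘ s) = tup Ψ ∘ s := by
    funext j
    simp only [Function.comp]
    rw [hgf _ ⟨_, rfl⟩, hf]
  rw [this]

theorem resT_mixT_same {𝔹 : Str σ ar B} (hmix : MixClosed 𝔹) {K n : ℕ} (ε : Fin K → Fin n)
    (hε : Function.Injective ε) (H' H : Typ 𝔹 n) :
    resT ε hε (mixT hmix (Set.range ε) H' H) = resT ε hε H' := by
  apply Subtype.ext
  funext i
  ext s
  show ε ∘ s ∈ mix (Set.range ε) H'.1 H.1 i ↔ ε ∘ s ∈ H'.1 i
  constructor
  · rintro (h | h)
    · exact h.2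
    · exact absurd (fun j => ⟨s j, rfl⟩) h.1
  · intro h
    exact Or.inl ⟨fun j => ⟨s j, rfl⟩, h⟩

theorem resT_mixT_disj {𝔹 : Str σ ar B} (har : ∀ i, 0 < ar i) (hmix : MixClosed 𝔹) {K n : ℕ}
    (ε ε' : Fin K → Fin n) (hε' : Function.Injective ε')
    (hd : ∀ a b, ε a ≠ ε' b) (H' H : Typ 𝔹 n) :
    resT ε' hε' (mixT hmix (Set.range ε) H' H) = resT ε' hε' H := by
  apply Subtype.ext
  funext i
  ext s
  have hn : ¬ ∀ j, (ε' ∘ s) j ∈ Set.range ε := by
    intro h
    obtain ⟨a, ha⟩ := h ⟨0, har i⟩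
    exact hd _ _ ha
  show ε' ∘ s ∈ mix (Set.range ε) H'.1 H.1 i ↔ ε' ∘ s ∈ H.1 i
  constructor
  · rintro (h | h)
    · exact absurd h.1 hn
    · exact h.2
  · intro h
    exact Or.inr ⟨hn, h⟩

theorem eq_of_mix {𝔹 : Str σ ar B} (hmix : MixClosed 𝔹) {K n : ℕ} (ε : Fin K → Fin n)
    (hε : Function.Injective ε) (H' H G : Typ 𝔹 n)
    (h1 : mixT hmix (Set.range ε) H' H = mixT hmix (Set.range ε) H' G)
    (h2 : resT ε hε H = resT ε hε G) : H = G := by
  apply Subtype.ext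
  funext i
  ext s
  by_cases hs : ∀ j, s j ∈ Set.range ε
  · choose s' hs' using hs
    have e : s = ε ∘ s' := funext fun j => (hs' j).symm
    have h3 : (resT ε hε H).1 i = (resT ε hε G).1 i := by rw [h2]
    have h4 : s' ∈ (resT ε hε H).1 i ↔ s' ∈ (resT ε hε G).1 i := by rw [h3]
    rw [e]
    exact h4
  · have h3 : (mixT hmix (Set.range ε) H' H).1 i = (mixT hmix (Set.range ε) H' G).1 i := by rw [h1]
    have h4 : s ∈ (mixT hmix (Set.range ε) H' H).1 i ↔ s ∈ (mixT hmix (Set.range ε) H' G).1 i := by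
      rw [h3]
    have h5 : ∀ F : Typ 𝔹 n, s ∈ (mixT hmix (Set.range ε) H' F).1 i ↔ s ∈ F.1 i := by
      intro F
      constructor
      · rintro (h | h)
        · exact absurd h.1 hs
        · exact h.2
      · intro h
        exact Or.inr ⟨hs, h⟩
    rw [h5, h5] at h4
    exact h4

/-- **Counting.** Vectors of types which do not have the given restrictions to any of `L` disjoint
blocks. -/
theorem count_blocks [Infinite B] [Finite σ] {𝔹 : Str σ ar B} (har : ∀ i, 0 < ar i)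
    (hmix : MixClosed 𝔹) {K n m : ℕ} (Ψ : Fin m → Typ 𝔹 K) (ε : ℕ → Fin K → Fin n)
    (hε : ∀ l, Function.Injective (ε l)) (L : ℕ)
    (hd : ∀ l l', l < L → l' < L → l ≠ l' → ∀ a b, ε l a ≠ ε l' b) :
    (Nat.card (Typ 𝔹 K)) ^ (m * L) *
      Nat.card {H : Fin m → Typ 𝔹 n // ∀ l < L, ∃ i, resT (ε l) (hε l) (H i) ≠ Ψ i} ≤
      ((Nat.card (Typ 𝔹 K)) ^ m - 1) ^ L * Nat.card (Fin m → Typ 𝔹 n) := by
  classical
  have hK := finite_typ 𝔹 K
  have hn := finite_typ 𝔹 n
  set M := (Nat.card (Typ 𝔹 K)) ^ m with hM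
  induction L with
  | zero =>
    simp
  | succ l ih =>
    have ih' := ih (fun a b ha hb => hd a b (by omega) (by omega))
    choose Ψ' hΨ' using fun i => exists_ext (n := n) (ε l) (hε l) (Ψ i)
    -- the vectors which have the restrictions on the block `l` and not on the earlier blocks
    let W := {H : Fin m → Typ 𝔹 n // ∀ l' < l, ∃ i, resT (ε l') (hε l') (H i) ≠ Ψ i}
    let D := {H : W // ∀ i, resT (ε l) (hε l) (H.1 i) = Ψ i}
    let W' := {H : Fin m → Typ 𝔹 n // ∀ l' < l + 1, ∃ i, resT (ε l') (hε l') (H i) ≠ Ψ i}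
    have h1 : Nat.card W ≤ Nat.card D * M := by
      have e1 : Nat.card D * M = Nat.card (D × (Fin m → Typ 𝔹 K)) := by
        rw [Nat.card_prod, Nat.card_fun, Nat.card_eq_fintype_card (α := Fin m), Fintype.card_fin]
      rw [e1]
      let Φ : W → D × (Fin m → Typ 𝔹 K) := fun H =>
        ⟨⟨⟨fun i => mixT hmix (Set.range (ε l)) (Ψ' i) (H.1 i), by
          intro l' hl'
          obtain ⟨i, hi⟩ := H.2 l' hl'
          refine ⟨i, ?_⟩
          rw [resT_mixT_disj har hmix (ε l) (ε l') (hε l')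
            (hd l l' (by omega) (by omega) (by omega))]
          exact hi⟩, by
          intro i
          show resT (ε l) (hε l) (mixT hmix (Set.range (ε l)) (Ψ' i) (H.1 i)) = Ψ i
          rw [resT_mixT_same]
          exact hΨ' i⟩, fun i => resT (ε l) (hε l) (H.1 i)⟩
      apply Nat.card_le_card_of_injective Φ
      intro H G hHG
      apply Subtype.ext
      funext i
      have h2 := congrArg (fun z : D × (Fin m → Typ 𝔹 K) => z.1.1.1 i) hHG
      have h3 := congrArg (fun z : D × (Fin m → Typ 𝔹 K) => z.2 i) hHG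
      exact eq_of_mix hmix (ε l) (hε l) (Ψ' i) _ _ h2 h3
    have h2 : Nat.card W' + Nat.card D ≤ Nat.card W := by
      rw [← Nat.card_sum]
      let Φ : W' ⊕ D → W := fun z => match z with
        | Sum.inl H => ⟨H.1, fun l' hl' => H.2 l' (by omega)⟩
        | Sum.inr H => H.1
      apply Nat.card_le_card_of_injective Φ
      rintro (H | H) (G | G) h
      · have : H.1 = G.1 := congrArg (fun z : W => z.1) h
        rw [Subtype.ext this]
      · have h3 : H.1 = G.1.1 := congrArg (fun z : W => z.1) h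
        obtain ⟨i, hi⟩ := H.2 l (by omega)
        rw [h3] at hi
        exact absurd (G.2 i) hi
      · have h3 : H.1.1 = G.1 := congrArg (fun z : W => z.1) h
        obtain ⟨i, hi⟩ := G.2 l (by omega)
        rw [← h3] at hi
        exact absurd (H.2 i) hi
      · have : H.1 = G.1 := h
        rw [Subtype.ext this]
    have h3 : M * Nat.card W' ≤ (M - 1) * Nat.card W := by
      rcases Nat.eq_zero_or_pos M with h0 | h0
      · rw [h0]; simp
      · obtain ⟨M', hM'⟩ : ∃ M', M = M' + 1 := ⟨M - 1, by omega⟩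
        rw [hM'] at h1 ⊢
        simp only [Nat.add_sub_cancel]
        nlinarith
    have e2 : (Nat.card (Typ 𝔹 K)) ^ (m * (l + 1)) = (Nat.card (Typ 𝔹 K)) ^ (m * l) * M := by
      rw [hM, ← pow_add]
      congr 1
    rw [e2]
    calc (Nat.card (Typ 𝔹 K)) ^ (m * l) * M * Nat.card W'
        = (Nat.card (Typ 𝔹 K)) ^ (m * l) * (M * Nat.card W') := by ring
      _ ≤ (Nat.card (Typ 𝔹 K)) ^ (m * l) * ((M - 1) * Nat.card W) := Nat.mul_le_mul_left _ h3
      _ = (M - 1) * ((Nat.card (Typ 𝔹 K)) ^ (m * l) * Nat.card W) := by ring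
      _ ≤ (M - 1) * ((M - 1) ^ l * Nat.card (Fin m → Typ 𝔹 n)) := Nat.mul_le_mul_left _ ih'
      _ = (M - 1) ^ (l + 1) * Nat.card (Fin m → Typ 𝔹 n) := by ring

end Pool.Agent.L5helper54.BP
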