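import Pool.Agent.L5helper54.BP.Cnt

/-!
The constraint satisfaction problem of a union of orbits of injective tuples; the final bound.
-/

namespace Pool.Agent.L5helper54.BP

open Pool.Agent.W994.AR

variable {B σ : Type} {ar : σ → ℕ}

theorem csp [Infinite B] {𝔹 : Str σ ar B} (hmix : MixClosed 𝔹) {n m N : ℕ}
    (H : Fin m → Typ 𝔹 n) (C : Set (Fin n → Fin N)) :
    (∃ f : Fin N → B, ∀ c ∈ C, (fun j => f (c j)) ∈ Rel 𝔹 H) ↔
      (∀ c ∈ C, Function.Injective c) ∧
      ∃ i : C → Fin m, ∀ (c c' : C) (ρ : σ) (s s' : Fin (ar ρ) → Fin n),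
        (∀ j, c.1 (s j) = c'.1 (s' j)) → (s ∈ (H (i c)).1 ρ ↔ s' ∈ (H (i c')).1 ρ) := by
  classical
  constructor
  · rintro ⟨f, hf⟩
    refine ⟨fun c hc x y hxy => (hf c hc).1 (congrArg f hxy), ?_⟩
    choose i hi using fun c : C => (hf c.1 c.2).2
    refine ⟨i, fun c c' ρ s s' hs => ?_⟩
    rw [hi c ρ s, hi c' ρ s']
    have : (fun j => f (c.1 (s j))) = fun j => f (c'.1 (s' j)) := by
      funext j
      rw [hs j]
    rw [this]
  · rintro ⟨hC, i, hi⟩
    have key : ∀ S : Finset C, ∃ t : Fin N → B, Function.Injective t ∧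
        ∀ c ∈ S, ∀ (ρ : σ) (s : Fin (ar ρ) → Fin n),
          (t ∘ (c.1 ∘ s) ∈ 𝔹 ρ ↔ s ∈ (H (i c)).1 ρ) := by
      intro S
      induction S using Finset.induction_on with
      | empty =>
        obtain ⟨g, hg, _⟩ := ext_inj (B := B) (Z := Fin N) (fun _ => Classical.arbitrary B) ∅
          (by intro x hx; exact absurd hx (Set.notMem_empty _))
        exact ⟨g, hg, fun c hc => absurd hc (Finset.notMem_empty _)⟩
      | @insert c0 S hc0 ih =>
        obtain ⟨t, ht, h⟩ := ih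
        obtain ⟨H', hH'⟩ := exists_ext (n := N) c0.1 (hC _ c0.2) (H (i c0))
        obtain ⟨u, hu, hu'⟩ := mix_tuple hmix ht (tup_inj H') (Set.range c0.1)
        have hin : ∀ (ρ : σ) (s : Fin (ar ρ) → Fin n),
            u ∘ (c0.1 ∘ s) ∈ 𝔹 ρ ↔ s ∈ (H (i c0)).1 ρ := by
          intro ρ s
          have e1 : u ∘ (c0.1 ∘ s) ∈ 𝔹 ρ ↔
              c0.1 ∘ s ∈ mix (Set.range c0.1) (ind 𝔹 (tup H')) (ind 𝔹 t) ρ := by
            rw [← hu']
            rfl
          have e2 : c0.1 ∘ s ∈ ind 𝔹 (tup H') ρ ↔ s ∈ (H (i c0)).1 ρ := by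
            rw [ind_tup, ← hH']
            rfl
          rw [e1, ← e2]
          constructor
          · rintro (h1 | h1)
            · exact h1.2
            · exact absurd (fun j => ⟨s j, rfl⟩) h1.1
          · intro h1
            exact Or.inl ⟨fun j => ⟨s j, rfl⟩, h1⟩
        refine ⟨u, hu, fun c hc ρ s => ?_⟩
        rcases Finset.mem_insert.1 hc with rfl | hcS
        · exact hin ρ s
        · by_cases hs : ∀ j, c.1 (s j) ∈ Set.range c0.1
          · choose s' hs' using hs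
            have e1 : c.1 ∘ s = c0.1 ∘ s' := funext fun j => (hs' j).symm
            rw [e1, hin ρ s']
            exact hi c0 c ρ s' s (fun j => hs' j)
          · rw [← h c hcS ρ s]
            have e1 : u ∘ (c.1 ∘ s) ∈ 𝔹 ρ ↔
                c.1 ∘ s ∈ mix (Set.range c0.1) (ind 𝔹 (tup H')) (ind 𝔹 t) ρ := by
              rw [← hu']
              rfl
            rw [e1]
            constructor
            · rintro (h1 | h1)
              · exact absurd h1.1 hs
              · exact h1.2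
            · intro h1
              exact Or.inr ⟨hs, h1⟩
    obtain ⟨t, ht, h⟩ := key (Set.toFinite (Set.univ : Set C)).toFinset
    refine ⟨t, fun c hc => ⟨fun x y hxy => hC c hc (ht hxy), i ⟨c, hc⟩, fun ρ s => ?_⟩⟩
    exact (h ⟨c, hc⟩ (by simp) ρ s).symm

theorem pos_of_ne {𝔹 : Str σ ar B} (har : ∀ i, 0 < ar i) {k : ℕ} {θ θ' : Typ 𝔹 k}
    (h : θ ≠ θ') : 1 ≤ k := by
  rcases Nat.eq_zero_or_pos k with rfl | h0
  · exfalso
    apply h
    apply Subtype.ext
    funext i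
    ext s
    exact (s ⟨0, har i⟩).elim0
  · exact h0

/-- **The proportion of the vectors of types which do not give a pp-construction of `K_3`.** -/
theorem bound [Infinite B] [Finite σ] {𝔹 : Str σ ar B} (h𝔹 : Homogeneous 𝔹)
    (har : ∀ i, 0 < ar i) (hmix : MixClosed 𝔹) {k : ℕ} {θ θ' : Typ 𝔹 k} (hθ : θ ≠ θ')
    {ι : Type} {arι : ι → ℕ} (Γ : Str ι arι B) (n m : ℕ) (hm : 3 ≤ m) :
    (Nat.card {H : Fin m → Typ 𝔹 n //
        ¬ PPConstructsK3 (expand Γ (τ := Fin 1) (k := fun _ => n) (fun _ => Rel 𝔹 H))} : ℝ) ≤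
      (1 - 1 / (Nat.card (Typ 𝔹 (9 * k)) : ℝ) ^ m) ^ (n / (9 * k)) *
        Nat.card (Fin m → Typ 𝔹 n) := by
  classical
  have hk := pos_of_ne har hθ
  have hn := finite_typ 𝔹 n
  have hKf := finite_typ 𝔹 (9 * k)
  obtain ⟨K, hK⟩ : ∃ K, K = 9 * k := ⟨_, rfl⟩
  have hT' := targets h𝔹 har hmix hk θ θ' hθ
  rw [← hK] at hT' hKf ⊢
  obtain ⟨Ψ, hΨ⟩ := hT'
  have hK0 : 0 < K := by omega
  set L := n / K with hL
  rcases Nat.eq_zero_or_pos L with h0 | h0
  · rw [h0, pow_zero, one_mul]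
    exact_mod_cast Nat.card_le_card_of_injective (fun H : {H : Fin m → Typ 𝔹 n //
        ¬ PPConstructsK3 (expand Γ (τ := Fin 1) (k := fun _ => n) (fun _ => Rel 𝔹 H))} => H.1)
        (fun a b h => Subtype.ext h)
  have hblock : ∀ l, l < L → ∀ a : Fin K, l * K + a.1 < n := by
    intro l hl a
    have h1 : (l + 1) * K ≤ L * K := Nat.mul_le_mul_right _ hl
    have h2 : L * K ≤ n := Nat.div_mul_le_self _ _
    have h3 := a.2
    have h4 : (l + 1) * K = l * K + K := by ring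
    omega
  let ε : ℕ → Fin K → Fin n := fun l a =>
    if h : l < L then ⟨l * K + a.1, hblock l h a⟩ else ⟨0 * K + a.1, hblock 0 h0 a⟩
  have hε1 : ∀ l, l < L → ∀ a, (ε l a).1 = l * K + a.1 := by
    intro l hl a
    simp only [ε, dif_pos hl]
  have hε : ∀ l, Function.Injective (ε l) := by
    intro l a b hab
    have h1 := congrArg (fun x : Fin n => x.1) hab
    by_cases hl : l < L
    · simp only [ε, dif_pos hl] at h1
      exact Fin.ext (by omega)
    · simp only [ε, dif_neg hl] at h1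
      exact Fin.ext (by omega)
  have hd : ∀ l l', l < L → l' < L → l ≠ l' → ∀ a b, ε l a ≠ ε l' b := by
    intro l l' hl hl' hne a b hab
    have h1 := congrArg (fun x : Fin n => x.1) hab
    simp only [hε1 l hl, hε1 l' hl'] at h1
    apply hne
    have ha := a.2
    have hb := b.2
    have h2 : (l * K + a.1) / K = l := by
      rw [mul_comm, Nat.mul_add_div hK0, Nat.div_eq_of_lt ha, add_zero]
    have h3 : (l' * K + b.1) / K = l' := by
      rw [mul_comm, Nat.mul_add_div hK0, Nat.div_eq_of_lt hb, add_zero]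
    rw [← h2, ← h3, h1]
  have hcount := count_blocks har hmix (fun i : Fin m => Ψ (pp i)) ε hε L hd
  have hsub : Nat.card {H : Fin m → Typ 𝔹 n //
        ¬ PPConstructsK3 (expand Γ (τ := Fin 1) (k := fun _ => n) (fun _ => Rel 𝔹 H))} ≤
      Nat.card {H : Fin m → Typ 𝔹 n // ∀ l < L, ∃ i, resT (ε l) (hε l) (H i) ≠ Ψ (pp i)} := by
    apply Nat.card_le_card_of_injective (fun H => ⟨H.1, by
      intro l hl
      by_contra hcon
      push Not at hcon
      apply H.2
      refine hΨ _ _ _ n m H.1 hm ?_ ⟨ε l, hε l, fun i => congrArg Subtype.val (hcon i)⟩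
      exact PP.rel (𝔸 := expand Γ (τ := Fin 1) (k := fun _ => n) (fun _ => Rel 𝔹 H.1))
        (Sum.inr 0) (fun x => x)⟩)
    intro a b h
    exact Subtype.ext (congrArg (fun x => x.1) h)
  have hT : 0 < Nat.card (Typ 𝔹 K) := by
    have : Nonempty (Typ 𝔹 K) := by
      obtain ⟨g, hg, _⟩ := ext_inj (B := B) (Z := Fin K) (fun _ => Classical.arbitrary B) ∅
        (by intro x hx; exact absurd hx (Set.notMem_empty _))
      exact ⟨⟨ind 𝔹 g, g, hg, fun _ _ => Iff.rfl⟩⟩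
    exact Nat.card_pos
  have hTm : (0 : ℝ) < (Nat.card (Typ 𝔹 K) : ℝ) ^ m := by positivity
  have hc : ((Nat.card (Typ 𝔹 K) : ℝ) ^ m) ^ L *
      (Nat.card {H : Fin m → Typ 𝔹 n // ∀ l < L, ∃ i, resT (ε l) (hε l) (H i) ≠ Ψ (pp i)} : ℝ) ≤
      ((Nat.card (Typ 𝔹 K) : ℝ) ^ m - 1) ^ L * Nat.card (Fin m → Typ 𝔹 n) := by
    have h1 : ((((Nat.card (Typ 𝔹 K)) ^ m - 1 : ℕ) : ℕ) : ℝ) = (Nat.card (Typ 𝔹 K) : ℝ) ^ m - 1 := by
      rw [Nat.cast_sub (Nat.one_le_pow _ _ hT)]
      push_cast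
      ring
    have h2 : ((Nat.card (Typ 𝔹 K)) ^ (m * L) *
      Nat.card {H : Fin m → Typ 𝔹 n // ∀ l < L, ∃ i, resT (ε l) (hε l) (H i) ≠ Ψ (pp i)} : ℝ) ≤
      ((((Nat.card (Typ 𝔹 K)) ^ m - 1 : ℕ) : ℕ) : ℝ) ^ L * Nat.card (Fin m → Typ 𝔹 n) := by
      exact_mod_cast hcount
    rw [h1] at h2
    rw [← pow_mul]
    exact h2
  calc (Nat.card {H : Fin m → Typ 𝔹 n //
        ¬ PPConstructsK3 (expand Γ (τ := Fin 1) (k := fun _ => n) (fun _ => Rel 𝔹 H))} : ℝ)
      ≤ Nat.card {H : Fin m → Typ 𝔹 n // ∀ l < L, ∃ i, resT (ε l) (hε l) (H i) ≠ Ψ (pp i)} := by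
        exact_mod_cast hsub
    _ ≤ ((Nat.card (Typ 𝔹 K) : ℝ) ^ m - 1) ^ L * Nat.card (Fin m → Typ 𝔹 n) /
        ((Nat.card (Typ 𝔹 K) : ℝ) ^ m) ^ L := by
        rw [le_div_iff₀ (by positivity), mul_comm]
        exact hc
    _ = (1 - 1 / (Nat.card (Typ 𝔹 K) : ℝ) ^ m) ^ L * Nat.card (Fin m → Typ 𝔹 n) := by
        rw [mul_div_right_comm, ← div_pow, sub_div, div_self hTm.ne']

/-- The structures in which the relations `i` with `irr i` contain injective tuples only, and the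
relations `i` with `sym i` are closed under permutations of the entries. -/
def Flags (irr sym : σ → Prop) {X : Type} (H : Str σ ar X) : Prop :=
  ∀ i, (irr i → ∀ s ∈ H i, Function.Injective s) ∧
    (sym i → ∀ s ∈ H i, ∀ π : Equiv.Perm (Fin (ar i)), (fun j => s (π j)) ∈ H i)

theorem mixClosed_of_flags {𝔹 : Str σ ar B} (irr sym : σ → Prop)
    (h : ∀ (n : ℕ) (H : Str σ ar (Fin n)), Embeds H 𝔹 ↔ Flags irr sym H) : MixClosed 𝔹 := by
  intro n P H H' hH hH'
  rw [h] at hH hH' ⊢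
  intro i
  refine ⟨fun hi s hs => ?_, fun hi s hs π => ?_⟩
  · rcases hs with hs | hs
    · exact (hH' i).1 hi s hs.2
    · exact (hH i).1 hi s hs.2
  · rcases hs with hs | hs
    · exact Or.inl ⟨fun j => hs.1 _, (hH' i).2 hi s hs.2 π⟩
    · refine Or.inr ⟨fun hP => hs.1 fun j => ?_, (hH i).2 hi s hs.2 π⟩
      have := hP (π⁻¹ j)
      simpa using this

end Pool.Agent.L5helper54.BP
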