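import Pool.Agent.L5helper54.BP.Mix

/-!
Types which occur at common coordinates give a pp-construction of `K_3`.
-/

namespace Pool.Agent.L5helper54.BP

open Pool.Agent.W994.AR

variable {B σ : Type} {ar : σ → ℕ}

theorem glue' [Infinite B] {𝔹 : Str σ ar B} (har : ∀ i, 0 < ar i) (hmix : MixClosed 𝔹)
    {Z : Type} [Finite Z] {I : Type} [Finite I] (P : I → Set Z)
    (hP : ∀ b b', b ≠ b' → Disjoint (P b) (P b'))
    (f : I → Z → B) (hf : ∀ b, Set.InjOn (f b) (P b)) :
    ∃ t : Z → B, Function.Injective t ∧ ∀ (b : I) (i : σ) (s : Fin (ar i) → Z),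
      (∀ j, s j ∈ P b) → (t ∘ s ∈ 𝔹 i ↔ (f b) ∘ s ∈ 𝔹 i) := by
  obtain ⟨q, ⟨e⟩⟩ := Finite.exists_equiv_fin I
  obtain ⟨t, ht, h⟩ := glue har hmix q (fun b => P (e.symm b))
    (fun b b' hb => hP _ _ (fun h => hb (e.symm.injective h))) (fun b => f (e.symm b))
    (fun b => hf _)
  refine ⟨t, ht, fun b i s hs => ?_⟩
  have := h (e b) i s (by simpa using hs)
  simpa using this

/-- the configuration of eight blocks -/
theorem config [Infinite B] {𝔹 : Str σ ar B} (h𝔹 : Homogeneous 𝔹) (har : ∀ i, 0 < ar i)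
    (hmix : MixClosed 𝔹) {k : ℕ} (θ : Bool → Typ 𝔹 k) (hθ : θ true ≠ θ false) :
    ∃ (A : Bool → Fin k → B) (X : Fin 3 → Bool → Fin k → B),
      ¬ Same (autGroup 𝔹) (A true) (A false) ∧ (∀ j c, Same (autGroup 𝔹) (A c) (X j c)) ∧
      (∀ j c, Function.Injective (pr A X j c)) ∧ (∀ i, Function.Injective (pat X i)) := by
  classical
  let I := Bool ⊕ Fin 3 × Bool
  let co : I → Bool := Sum.elim id Prod.snd
  obtain ⟨t, ht, h⟩ := glue' (Z := I × Fin k) (I := I) har hmix (fun b => {z | z.1 = b})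
    (fun b b' hb => by
      rw [Set.disjoint_left]
      intro z hz hz'
      exact hb (hz.symm.trans hz')) (fun b z => tup (θ (co b)) z.2) (by
      intro b z hz z' hz' e
      have := tup_inj _ e
      exact Prod.ext (hz.trans hz'.symm) this)
  have hblk : ∀ b : I, ind 𝔹 (fun a => t (b, a)) = (θ (co b)).1 := by
    intro b
    rw [← ind_tup (θ (co b))]
    funext i
    ext s
    exact h b i (fun j => (b, s j)) (fun j => rfl)
  have hinj : ∀ b : I, Function.Injective (fun a => t (b, a)) := by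
    intro b x y e
    exact (Prod.mk.inj (ht e)).2
  refine ⟨fun c a => t (Sum.inl c, a), fun j c a => t (Sum.inr (j, c), a), ?_, ?_, ?_, ?_⟩
  · intro hs
    have := (same_iff h𝔹 (hinj _) (hinj _)).1 hs
    rw [hblk, hblk] at this
    exact hθ (Subtype.ext this)
  · intro j c
    refine (same_iff h𝔹 (hinj _) (hinj _)).2 ?_
    rw [hblk, hblk]
    rfl
  · intro j c x y e
    rcases x with x | x <;> rcases y with y | y
    · have := ht e
      simp only [Prod.mk.injEq] at this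
      rw [this.2]
    · have := ht e
      simp at this
    · have := ht e
      simp at this
    · have := ht e
      simp only [Prod.mk.injEq] at this
      rw [this.2]
  · intro i x y e
    have := ht e
    have h1 := congrArg Prod.fst this
    have h2 := congrArg Prod.snd this
    have h3 := Sum.inr.inj h1
    exact Prod.ext (Prod.mk.inj h3).1 h2

/-- the structure induced on the image of `ε` -/
def res {K n : ℕ} (ε : Fin K → Fin n) (H : Str σ ar (Fin n)) : Str σ ar (Fin K) :=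
  fun i => {s | ε ∘ s ∈ H i}

/-- the pattern of the type with the number `i` -/
def pp {m : ℕ} (i : Fin m) : Fin 3 := if i.1 = 0 then 0 else if i.1 = 1 then 1 else 2

theorem pp_surj {m : ℕ} (hm : 3 ≤ m) (j : Fin 3) : ∃ i : Fin m, pp i = j := by
  fin_cases j
  · exact ⟨⟨0, by omega⟩, by simp [pp]⟩
  · exact ⟨⟨1, by omega⟩, by simp [pp]⟩
  · exact ⟨⟨2, by omega⟩, by simp [pp]⟩

/-- **The types of blocks with `9 k` coordinates.** -/
theorem targets [Infinite B] {𝔹 : Str σ ar B} (h𝔹 : Homogeneous 𝔹) (har : ∀ i, 0 < ar i)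
    (hmix : MixClosed 𝔹) {k : ℕ} (hk : 1 ≤ k) (θ θ' : Typ 𝔹 k) (hθ : θ ≠ θ') :
    ∃ Ψ : Fin 3 → Typ 𝔹 (9 * k), ∀ (ι : Type) (arι : ι → ℕ) (𝔸 : Str ι arι B) (n m : ℕ)
      (H : Fin m → Typ 𝔹 n), 3 ≤ m → PP 𝔸 (Rel 𝔹 H) →
      (∃ ε : Fin (9 * k) → Fin n, Function.Injective ε ∧ ∀ i, res ε (H i).1 = (Ψ (pp i)).1) →
      PPConstructsK3 𝔸 := by
  classical
  obtain ⟨A, X, hA, hX, hpr, hpat⟩ := config h𝔹 har hmix (fun c => if c then θ' else θ)
    (by simpa using hθ.symm)
  let Y := (Fin 3 × (Fin k ⊕ Fin k)) ⊕ (Fin 3 × Fin k)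
  have hY : Fintype.card Y = 9 * k := by
    simp [Y]
    ring
  let e : Fin (9 * k) ≃ Y := (Fintype.equivFinOfCardEq hY).symm
  let cl : Fin 3 → Bool := fun i => decide (i ≠ 0)
  let F : Fin 3 → Y → B := fun i =>
    Sum.elim (fun x => pr A X x.1 (cl i) x.2) (fun x => pat X i x)
  have hu : ∀ i : Fin 3, ∃ u : Y → B, Function.Injective u ∧
      (∀ j, Same (autGroup 𝔹) (pr A X j (cl i)) (fun x => u (Sum.inl (j, x)))) ∧
      Same (autGroup 𝔹) (pat X i) (fun x => u (Sum.inr x)) := by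
    intro i
    obtain ⟨u, hu, h⟩ := glue' (Z := Y) (I := Option (Fin 3)) har hmix
      (fun b => match b with
        | some j => Set.range (fun x => (Sum.inl (j, x) : Y))
        | none => Set.range (fun x => (Sum.inr x : Y)))
      (by
        intro b b' hb
        rw [Set.disjoint_left]
        rcases b with _ | j <;> rcases b' with _ | j'
        · exact absurd rfl hb
        · rintro _ ⟨x, rfl⟩ ⟨y, hy⟩
          cases hy
        · rintro _ ⟨x, rfl⟩ ⟨y, hy⟩
          cases hy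
        · rintro _ ⟨x, rfl⟩ ⟨y, hy⟩
          have h1 := congrArg Prod.fst (Sum.inl.inj hy)
          exact hb (congrArg some h1.symm))
      (fun _ => F i)
      (by
        intro b
        rcases b with _ | j
        · rintro _ ⟨x, rfl⟩ _ ⟨y, rfl⟩ hxy
          exact congrArg Sum.inr (hpat i hxy)
        · rintro _ ⟨x, rfl⟩ _ ⟨y, rfl⟩ hxy
          have : x = y := hpr j (cl i) hxy
          rw [this])
    refine ⟨u, hu, ?_, ?_⟩
    · intro j
      refine (same_iff h𝔹 (hpr _ _) ?_).2 ?_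
      · intro x y hxy
        exact congrArg Prod.snd (Sum.inl.inj (hu hxy))
      · funext ρ
        ext s
        exact (h (some j) ρ (fun a => Sum.inl (j, s a)) (fun a => ⟨s a, rfl⟩)).symm
    · refine (same_iff h𝔹 (hpat _) ?_).2 ?_
      · intro x y hxy
        exact Sum.inr.inj (hu hxy)
      · funext ρ
        ext s
        exact (h none ρ (fun a => Sum.inr (s a)) (fun a => ⟨s a, rfl⟩)).symm
  choose u hu1 hu2 hu3 using hu
  refine ⟨fun i => ⟨ind 𝔹 (u i ∘ e), ⟨u i ∘ e, (hu1 i).comp e.injective, fun _ _ => Iff.rfl⟩⟩, ?_⟩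
  intro ι arι 𝔸 n m H hm hR hε
  obtain ⟨ε, hε, hres⟩ := hε
  have hsame : ∀ i, Same (autGroup 𝔹) (u (pp i) ∘ e) (tup (H i) ∘ ε) := by
    intro i
    refine (same_iff h𝔹 ((hu1 _).comp e.injective) ((tup_inj _).comp hε)).2 ?_
    have h1 := hres i
    rw [← ind_tup (H i)] at h1
    exact h1.symm
  have hsame' : ∀ i, Same (autGroup 𝔹) (u (pp i)) (tup (H i) ∘ (ε ∘ e.symm)) := by
    intro i
    have h1 := (hsame i).comp e.symm
    have e1 : (u (pp i) ∘ e) ∘ e.symm = u (pp i) := by funext x; simp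
    rw [e1] at h1
    exact h1
  rw [rel_eq h𝔹] at hR
  refine k3_of_blocks (G := autGroup 𝔹) (A := A) (X := X) hk hA hX ?_ ?_
  · have h1 := pp_proj (fun i => tup (H i)) hR (fun x : Fin 3 × Fin k => ε (e.symm (Sum.inr x)))
    refine (congrArg (PP 𝔸) ?_).mp h1
    ext v
    constructor
    · rintro ⟨i, hi⟩
      exact ⟨pp i, ((hu3 _).trans ((hsame' i).comp Sum.inr)).trans hi⟩
    · rintro ⟨j, hj⟩
      obtain ⟨i, rfl⟩ := pp_surj hm j
      exact ⟨i, (((hu3 _).trans ((hsame' i).comp Sum.inr)).symm).trans hj⟩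
  · intro j
    have h1 := pp_proj (fun i => tup (H i)) hR
      (fun x : Fin k ⊕ Fin k => ε (e.symm (Sum.inl (j, x))))
    refine (congrArg (PP 𝔸) ?_).mp h1
    have h2 : ∀ i : Fin m, Same (autGroup 𝔹) (pr A X j (cl (pp i)))
        (tup (H i) ∘ (fun x : Fin k ⊕ Fin k => ε (e.symm (Sum.inl (j, x))))) := fun i =>
      (hu2 _ j).trans ((hsame' i).comp (fun x => Sum.inl (j, x)))
    ext v
    constructor
    · rintro ⟨i, hi⟩
      exact ⟨cl (pp i), (h2 i).trans hi⟩
    · rintro ⟨c, hc⟩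
      obtain ⟨i, hi⟩ : ∃ i : Fin m, cl (pp i) = c := by
        cases c
        · obtain ⟨i, hi⟩ := pp_surj hm 0
          exact ⟨i, by rw [hi]; rfl⟩
        · obtain ⟨i, hi⟩ := pp_surj hm 1
          exact ⟨i, by rw [hi]; rfl⟩
      rw [← hi] at hc
      exact ⟨i, (h2 i).symm.trans hc⟩

end Pool.Agent.L5helper54.BP
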