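import Pool.Agent.L5helper54.BP.Block

/-!
Homogeneous structures whose age is closed under mixing; gluing of types on disjoint blocks.
-/

namespace Pool.Agent.L5helper54.BP

open Pool.Agent.W994.AR

variable {B σ : Type} {ar : σ → ℕ}

/-- The structure which agrees with `H'` on the tuples with all entries in `P` and with `H` on all
other tuples. -/
def mix {X : Type} (P : Set X) (H' H : Str σ ar X) : Str σ ar X :=
  fun i => {s | ((∀ j, s j ∈ P) ∧ s ∈ H' i) ∨ (¬ (∀ j, s j ∈ P) ∧ s ∈ H i)}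

/-- The age of `𝔹` is closed under mixing. -/
def MixClosed (𝔹 : Str σ ar B) : Prop :=
  ∀ (n : ℕ) (P : Set (Fin n)) (H H' : Str σ ar (Fin n)), Embeds H 𝔹 → Embeds H' 𝔹 →
    Embeds (mix P H' H) 𝔹

/-- the structure induced by a tuple -/
def ind {V : Type} (𝔹 : Str σ ar B) (t : V → B) : Str σ ar V := fun i => {s | t ∘ s ∈ 𝔹 i}

theorem same_iff {𝔹 : Str σ ar B} (h𝔹 : Homogeneous 𝔹) {V : Type} [Finite V] {t t' : V → B}
    (ht : Function.Injective t) (ht' : Function.Injective t') :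
    Same (autGroup 𝔹) t t' ↔ ind 𝔹 t = ind 𝔹 t' := by
  constructor
  · rintro ⟨g, hg, h⟩
    have e : t' = fun x => g (t x) := funext fun x => (h x).symm
    subst e
    funext i
    ext s
    exact hg i (t ∘ s)
  · intro h
    refine hom_same h𝔹 t t' (fun i j => ⟨fun e => by rw [ht e], fun e => by rw [ht' e]⟩)
      (fun i s => ?_)
    have := congrFun h i
    constructor
    · intro hs
      have h1 : s ∈ ind 𝔹 t i := hs
      rw [this] at h1
      exact h1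
    · intro hs
      have h1 : s ∈ ind 𝔹 t' i := hs
      rw [← this] at h1
      exact h1

theorem ext_inj {Z : Type} [Finite Z] [Infinite B] (f : Z → B) (P : Set Z) (hf : Set.InjOn f P) :
    ∃ g : Z → B, Function.Injective g ∧ ∀ z ∈ P, g z = f z := by
  classical
  have hfin : (f '' P).Finite := (Set.toFinite P).image f
  have hinf : Infinite ↥(f '' P)ᶜ := hfin.infinite_compl.to_subtype
  have hZ := Fintype.ofFinite Z
  obtain ⟨h⟩ : Nonempty (Z ↪ ↥(f '' P)ᶜ) := by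
    have e1 : Z ↪ ℕ := (Fintype.equivFin Z).toEmbedding.trans Fin.valEmbedding
    exact ⟨e1.trans (Infinite.natEmbedding _)⟩
  refine ⟨fun z => if z ∈ P then f z else (h z).1, ?_, fun z hz => if_pos hz⟩
  intro x y hxy
  simp only at hxy
  split_ifs at hxy with hx hy hy
  · exact hf hx hy hxy
  · exact absurd ⟨x, hx, hxy⟩ (h y).2
  · exact absurd ⟨y, hy, hxy.symm⟩ (h x).2
  · exact h.injective (Subtype.ext hxy)

/-- mixing of tuples -/
theorem mix_tuple {𝔹 : Str σ ar B} (hmix : MixClosed 𝔹) {Z : Type} [Finite Z] {t t' : Z → B}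
    (ht : Function.Injective t) (ht' : Function.Injective t') (P : Set Z) :
    ∃ u : Z → B, Function.Injective u ∧ ind 𝔹 u = mix P (ind 𝔹 t') (ind 𝔹 t) := by
  obtain ⟨n, ⟨e⟩⟩ := Finite.exists_equiv_fin Z
  have h1 : Embeds (ind 𝔹 (t ∘ e.symm)) 𝔹 :=
    ⟨t ∘ e.symm, ht.comp e.symm.injective, fun i v => Iff.rfl⟩
  have h2 : Embeds (ind 𝔹 (t' ∘ e.symm)) 𝔹 :=
    ⟨t' ∘ e.symm, ht'.comp e.symm.injective, fun i v => Iff.rfl⟩
  obtain ⟨u, hu, hu'⟩ := hmix n (e.symm ⁻¹' P) _ _ h1 h2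
  refine ⟨u ∘ e, hu.comp e.injective, ?_⟩
  funext i
  ext s
  have h3 := hu' i (e ∘ s)
  have e1 : (fun j => u ((e ∘ s) j)) = (u ∘ e) ∘ s := rfl
  rw [e1] at h3
  have e2 : (t ∘ e.symm) ∘ (e ∘ s) = t ∘ s := by funext j; simp
  have e3 : (t' ∘ e.symm) ∘ (e ∘ s) = t' ∘ s := by funext j; simp
  have e4 : (∀ j, (e ∘ s) j ∈ e.symm ⁻¹' P) ↔ ∀ j, s j ∈ P := by
    simp [Set.mem_preimage]
  show (u ∘ e) ∘ s ∈ 𝔹 i ↔ _
  rw [← h3]
  simp only [mix, Set.mem_ofPred_eq, ind, e2, e3, e4]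

/-- gluing -/
theorem glue [Infinite B] {𝔹 : Str σ ar B} (har : ∀ i, 0 < ar i) (hmix : MixClosed 𝔹) {Z : Type}
    [Finite Z] (q : ℕ) (P : Fin q → Set Z) (hP : ∀ b b', b ≠ b' → Disjoint (P b) (P b'))
    (f : Fin q → Z → B) (hf : ∀ b, Set.InjOn (f b) (P b)) :
    ∃ t : Z → B, Function.Injective t ∧ ∀ (b : Fin q) (i : σ) (s : Fin (ar i) → Z),
      (∀ j, s j ∈ P b) → (t ∘ s ∈ 𝔹 i ↔ (f b) ∘ s ∈ 𝔹 i) := by
  suffices h : ∀ r : ℕ, r ≤ q → ∃ t : Z → B, Function.Injective t ∧ ∀ (b : Fin q), b.1 < r →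
      ∀ (i : σ) (s : Fin (ar i) → Z), (∀ j, s j ∈ P b) → (t ∘ s ∈ 𝔹 i ↔ (f b) ∘ s ∈ 𝔹 i) by
    obtain ⟨t, ht, h'⟩ := h q le_rfl
    exact ⟨t, ht, fun b => h' b b.2⟩
  intro r
  induction r with
  | zero =>
    intro _
    obtain ⟨g, hg, _⟩ := ext_inj (B := B) (Z := Z) (fun _ => Classical.arbitrary B) ∅
      (by intro x hx; exact absurd hx (Set.notMem_empty _))
    exact ⟨g, hg, fun b hb => absurd hb (Nat.not_lt_zero _)⟩
  | succ r ih =>
    intro hr
    obtain ⟨t, ht, h⟩ := ih (by omega)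
    let b0 : Fin q := ⟨r, by omega⟩
    obtain ⟨t', ht', h'⟩ := ext_inj (f b0) (P b0) (hf b0)
    obtain ⟨u, hu, hu'⟩ := mix_tuple hmix ht ht' (P b0)
    refine ⟨u, hu, ?_⟩
    intro b hb i s hs
    have key : u ∘ s ∈ 𝔹 i ↔ s ∈ mix (P b0) (ind 𝔹 t') (ind 𝔹 t) i := by
      rw [← hu']
      rfl
    rw [key]
    by_cases hbb : b = b0
    · subst hbb
      have e1 : t' ∘ s = f b0 ∘ s := by
        funext j
        exact h' _ (hs j)
      simp only [mix, Set.mem_ofPred_eq, ind, e1]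
      constructor
      · rintro (h1 | h1)
        · exact h1.2
        · exact absurd hs h1.1
      · intro h1
        exact Or.inl ⟨hs, h1⟩
    · have hb' : b.1 < r := by
        have : b.1 ≠ r := fun e => hbb (Fin.ext e)
        omega
      have hn : ¬ ∀ j, s j ∈ P b0 := by
        intro h1
        exact Set.disjoint_left.1 (hP b b0 hbb) (hs ⟨0, har i⟩) (h1 ⟨0, har i⟩)
      rw [← h b hb' i s hs]
      simp only [mix, Set.mem_ofPred_eq, ind]
      constructor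
      · rintro (h1 | h1)
        · exact absurd h1.1 hn
        · exact h1.2
      · intro h1
        exact Or.inr ⟨hn, h1⟩

/-- The types of injective `n`-tuples of elements of `𝔹`, as structures on `n` points. -/
def Typ (𝔹 : Str σ ar B) (n : ℕ) : Type := {H : Str σ ar (Fin n) // Embeds H 𝔹}

theorem finite_typ [Finite σ] (𝔹 : Str σ ar B) (n : ℕ) : Finite (Typ 𝔹 n) := by
  have := finite_str ar n
  unfold Typ
  infer_instance

/-- The relation given by `m` types: the injective tuples with one of the types. -/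
def Rel (𝔹 : Str σ ar B) {n m : ℕ} (H : Fin m → Typ 𝔹 n) : Set (Fin n → B) :=
  {v | Function.Injective v ∧ ∃ i, ∀ ρ s, s ∈ (H i).1 ρ ↔ (fun j => v (s j)) ∈ 𝔹 ρ}

/-- an injective tuple with the given type -/
noncomputable def tup {𝔹 : Str σ ar B} {n : ℕ} (H : Typ 𝔹 n) : Fin n → B := H.2.choose

theorem tup_inj {𝔹 : Str σ ar B} {n : ℕ} (H : Typ 𝔹 n) : Function.Injective (tup H) :=
  H.2.choose_spec.1

theorem ind_tup {𝔹 : Str σ ar B} {n : ℕ} (H : Typ 𝔹 n) : ind 𝔹 (tup H) = H.1 := by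
  funext i
  ext s
  exact (H.2.choose_spec.2 i s).symm

theorem rel_eq {𝔹 : Str σ ar B} (h𝔹 : Homogeneous 𝔹) {n m : ℕ} (H : Fin m → Typ 𝔹 n) :
    Rel 𝔹 H = {v | ∃ i, Same (autGroup 𝔹) (tup (H i)) v} := by
  ext v
  constructor
  · rintro ⟨hv, i, h⟩
    refine ⟨i, (same_iff h𝔹 (tup_inj _) hv).2 ?_⟩
    rw [ind_tup]
    funext ρ
    ext s
    exact h ρ s
  · rintro ⟨i, h⟩
    have hv : Function.Injective v := by
      obtain ⟨g, _, hg⟩ := h
      intro x y hxy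
      rw [← hg x, ← hg y] at hxy
      exact tup_inj _ (g.injective hxy)
    refine ⟨hv, i, ?_⟩
    have := (same_iff h𝔹 (tup_inj _) hv).1 h
    rw [ind_tup] at this
    intro ρ s
    rw [this]
    rfl

theorem invar_rel {𝔹 : Str σ ar B} (h𝔹 : Homogeneous 𝔹) {n m : ℕ} (H : Fin m → Typ 𝔹 n) :
    Invar (autGroup 𝔹) (Rel 𝔹 H) := by
  rw [rel_eq h𝔹]
  rintro g hg v ⟨i, h⟩
  exact ⟨i, h.trans ⟨g, hg, fun _ => rfl⟩⟩

/-- projections -/
theorem pp_proj {G : Subgroup (Equiv.Perm B)} {ι : Type} {arι : ι → ℕ} {𝔸 : Str ι arι B}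
    {n m : ℕ} (t : Fin m → Fin n → B) (hR : PP 𝔸 {v | ∃ i, Same G (t i) v}) {V : Type} [Finite V]
    (f : V → Fin n) : PP 𝔸 {v : V → B | ∃ i, Same G (t i ∘ f) v} := by
  have h1 : PP 𝔸 {z : V ⊕ Fin n → B | z ∘ (Sum.inr : Fin n → V ⊕ Fin n) ∈
      {v | ∃ i, Same G (t i) v}} := hR.subst _
  have h2 : PP 𝔸 {z : V ⊕ Fin n → B | ∀ x ∈ (Set.univ : Set V),
      z ∈ {z : V ⊕ Fin n → B | z (Sum.inl x) = z (Sum.inr (f x))}} :=
    PP.iInter _ Set.finite_univ _ (fun x _ => PP.eq _ _)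
  have h3 := (h1.inter h2).ex (V := V) (U := Fin n)
  refine (congrArg (PP 𝔸) ?_).mp h3
  ext v
  constructor
  · rintro ⟨w, ⟨i, hi⟩, hw⟩
    refine ⟨i, ?_⟩
    have h4 : Same G (t i) w := hi
    have h5 : v = w ∘ f := by
      funext x
      exact hw x (Set.mem_univ _)
    rw [h5]
    exact h4.comp f
  · rintro ⟨i, g, hg, h⟩
    refine ⟨fun x => g (t i x), ⟨i, g, hg, fun _ => rfl⟩, ?_⟩
    intro x _
    exact (h x).symm

end Pool.Agent.L5helper54.BP
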